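import Pool.Agent.H97.FIN.D3
import Pool.Agent.H97.E7.All
import Pool.Agent.H84.NT.THN
import Pool.Agent.H76.NT.NUM
import Pool.Agent.H95.NT.E3
import Pool.Agent.H84.NT.All

/-!
# Assembly of Parts A to E7: the statement `KK` of Part F
-/

open MeasureTheory ProbabilityTheory
open scoped ENNReal

namespace Pool.Agent.H97.FIN

open Pool.Agent.H99.NS Pool.Agent.H22.LPP Pool.Agent.H95.INS Pool.Agent.H76.ND
open Pool.Agent.H84.GL (cst)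
open Pool.Agent.H95.ND (PK I_N I_V PALMs)

open Pool.Agent.H84.NT.Mid (m_PEI m_LGD m_SWS m_GRP m_LG m_AC)
open Pool.Agent.H84.NT.All (e_OR e_ING e_INT e_SGB e_RGN e_TOPN e_FTN e_PP)

/-- Thin near ties. -/
theorem f_THN : Pool.Agent.H84.NT5.T_THN :=
  Pool.Agent.H84.NT5.TH.pf_THN Pool.Agent.H76.NT.pf_NUM Pool.Agent.H95.NT.pf_E3 p_MEA e_OR e_ING
    e_INT m_PEI m_LGD a_gr Pool.Agent.H84.NT.pf_BLK Pool.Agent.H84.NT5.pf_DAC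
    Pool.Agent.H84.NT5.pf_RRA e_SGB m_SWS t_MAR t_FIM a_lam

variable {q : ℝ} (hq0 : 0 < q) (hq1 : q < 1)

include hq0 hq1

theorem i_LT : I_LT q := lt1_of A.a_LT hq0 hq1

theorem lts : LTS q (cst q) := by
  intro ε hε
  obtain ⟨K₀, hK₀, H⟩ := A.a_LTS q hq0 hq1 ε hε
  exact ⟨K₀, by linarith, H⟩

theorem i_A : I_A q := t_IA (a_ba A.a_UT A.a_LT) q hq0 hq1

theorem i_C : I_C q := t_IC (a_bc A.a_UT A.a_LT) q hq0 hq1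

theorem i_B : I_B q := t_IB (a_bl A.a_LT) q hq0 hq1

theorem i_S : I_S q (cst q) :=
  t_IS (b_bcs A.a_LT) q (cst q) hq0 hq1 (cst_pos' hq0 hq1) (uts_of A.a_UTMS hq0 hq1)

theorem i_L : I_L q (cst q) := t_IL q (cst q) hq0 hq1 (lts hq0 hq1)

theorem i_RG : Pool.Agent.H95.ND.I_RG q := e_IRN q hq0 hq1

theorem i_TP : Pool.Agent.H95.ND.I_TOP q := (e_ITP q hq0 hq1 (i_LT hq0 hq1)).2

/-- PALM for some choice of the constants of Part D. -/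
theorem palm {M : ℝ} (hM : 0 ≤ M) : ∃ (δ C₀ : ℝ) (c : Cst) (k₀ : ℕ) (p₀ : ℝ≥0∞),
    PK q δ C₀ c k₀ p₀ ∧ PALMs c M := by
  obtain ⟨C₀, hC₀, hGD⟩ := d_GD q hq0 hq1
  obtain ⟨δ, K00, hδ, hδ1, hK00, hJC⟩ := p_JC q hq0 hq1 (i_V hq0 hq1) (i_N hq0 hq1) 2
    (2 * M + 8) (by norm_num) (by linarith)
  obtain ⟨c, k₀, p₀, hK0, hPK⟩ := p_PK q (cst q) hq0 hq1 (cst_pos' hq0 hq1) (i_A hq0 hq1)
    (i_C hq0 hq1) (i_B hq0 hq1) (i_S hq0 hq1) (i_L hq0 hq1) δ C₀ K00 hδ hδ1 hC₀.le hK00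
  exact ⟨δ, C₀, c, k₀, p₀, hPK, p_PALM a_lam a_lamm q δ C₀ M c k₀ p₀ hq0 hq1 hM
    hGD hPK (hJC C₀ c k₀ p₀ hPK hK0.ge) (i_RG hq0 hq1) (i_TP hq0 hq1)⟩

theorem i_REG : Pool.Agent.H97.ST.I_REG q := by
  obtain ⟨δ, C₀, c, k₀, p₀, hPK, hP⟩ := palm hq0 hq1 (M := 60) (by norm_num)
  exact e_IRG q hq0 hq1 (i_RG hq0 hq1) (i_TP hq0 hq1)
    ⟨c, 60, hPK.hq, hPK.K01, le_rfl, e_NG1 c 60 (by norm_num) (by linarith [hPK.A1]) hP⟩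

theorem i_PALM : Pool.Agent.H97.ST.I_PALM q := by
  obtain ⟨δ, C₀, c, k₀, p₀, hPK, hP⟩ := palm hq0 hq1 (M := 10) (by norm_num)
  exact H97.BR.pf_IPL a_lamm Pool.Agent.H97.E7.a_TRF q hq0 hq1 (i_TP hq0 hq1)
    ⟨c, 10, hPK.hq, hPK.A1, le_rfl, hP⟩

/-- Near ties are rare (Part E). -/
theorem i_NT : Pool.Agent.H97.ST.I_NT q := by
  obtain ⟨δ, C₀, c, k₀, p₀, hPK, hP⟩ := palm hq0 hq1 (M := 10) (by norm_num)
  have hPP := e_PP hPK hP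
  exact Pool.Agent.H4.NT.pf_NTF q hq0 hq1
    (f_THN q hq0 hq1 hPP (m_GRP q hq0 hq1) (m_LG q hq0 hq1) (e_RGN q hq0 hq1)
      (e_TOPN q hq0 hq1))
    (e_FTN q hq0 hq1 hPP (m_GRP q hq0 hq1) (m_AC q hq0 hq1) (e_RGN q hq0 hq1)
      (e_TOPN q hq0 hq1))

/-- Stability of the leftmost geodesic (Part E). -/
theorem i_ST : I_ST q :=
  Pool.Agent.H97.E7.e7 hq0 hq1 (i_NT hq0 hq1) (i_REG hq0 hq1) (i_PALM hq0 hq1)
    (e_ITP q hq0 hq1 (i_LT hq0 hq1)).1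

/-- The overlap theorem (Part C). -/
theorem i_OVL : I_OVL q := by
  intro K B ε' hK hB hε'
  obtain ⟨A, H, Y, κ, c₁, p₀, k₀, hA, hp, hk, hκ0, hκ1, hc, hH, h⟩ :=
    f_OVL2 a_lam q (cst q) hq0 hq1 (cst_pos' hq0 hq1) (i_A hq0 hq1)
      (i_C hq0 hq1) (i_B hq0 hq1) (i_S hq0 hq1) (i_L hq0 hq1) (i_ST hq0 hq1) K B ε' hK hB hε'
  refine ⟨A, H, Y, κ, c₁, p₀, k₀, hA, hp, hk, hκ0, hκ1, hc, fun k X hkk hX1 hX2 => ?_⟩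
  obtain ⟨h1, h2, h3, h4, h5⟩ := h k X hkk hX1 hX2
  exact ⟨h1, h3, h2, fun out o e he hg => (h4 out o e he hg).2, h5⟩

theorem kk' : Pool.Agent.H97.NF.KK q :=
  e_KK q hq0 hq1 (i_LT hq0 hq1) (i_N hq0 hq1) (i_V hq0 hq1) (i_OVL hq0 hq1)

omit hq0 hq1

/-- The statement `KK` of Part F. -/
theorem kk : ∀ q : ℝ, 0 < q → q < 1 → Pool.Agent.H97.NF.KK q := fun _ h0 h1 => kk' h0 h1

open Pool.Agent.H97.NF (NoiseSensitive corrT) in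
/-- The conclusion of MP_57ddd5_pr. -/
theorem main (p : ℝ) (hp0 : 0 < p) (hp1 : p < 1) :
    NoiseSensitive p ∧
    ∃ C : ℝ, ∀ n : ℕ, 2 ≤ n → ∀ t : ℝ, 0 < t →
      0 ≤ corrT p t n ∧
      corrT p t n ≤ C / (1 + max 0 (Real.log ((n : ℝ) ^ ((1 : ℝ) / 3) * min t 1))) :=
  Pool.Agent.H97.NF.partF kk A.a_VAR p hp0 hp1

end Pool.Agent.H97.FIN
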