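import Pool.Agent.H20.ND.ALM
import Pool.Agent.H20.ND.UM3
import Pool.Agent.H85.ND.D1
import Pool.Agent.H85.ND.DIF
import Pool.Agent.H85.ND.GD
import Pool.Agent.H29.ND.D2
import Pool.Agent.H29.ND.D2C
import Pool.Agent.H29.ND.REC
import Pool.Agent.H35.ND.D2S
import Pool.Agent.H35.ND.O2
import Pool.Agent.H35.ND.REGE
import Pool.Agent.H4.ND.D3A
import Pool.Agent.H4.ND.LBC
import Pool.Agent.H4.ND.LW
import Pool.Agent.H4.ND.WB
import Pool.Agent.H2.ND.D3D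
import Pool.Agent.H2.ND.GSI
import Pool.Agent.H2.ND.SLP
import Pool.Agent.H86.ND.NOR
import Pool.Agent.H86.ND.O1
import Pool.Agent.H86.ND.U
import Pool.Agent.H76.ND.RndRev

/-!
# Assembly: Part D, deterministic half
-/

namespace Pool.Agent.H97.FIN

open Pool.Agent.H76.ND

theorem d_RND : T_RND := H76.ND.pf_RND
theorem d_REV : T_REV := H76.ND.pf_REV
theorem d_ALM : T_ALM := H20.ND.pf_ALM
theorem d_UM3 : T_UM3 := H20.ND.pf_UM3
theorem d_U : T_U := H86.ND.pf_U d_UM3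
theorem d_O1 : T_O1 := H86.ND.O1M.pf_O1
theorem d_O2 : T_O2 := H35.ND.pf_O2 d_RND
theorem d_LBC : T_LBC := H4.ND.pf_LBC d_RND
theorem d_D1 : T_D1 := H85.ND.pf_D1 d_U d_O1 d_LBC d_O2
theorem d_NOR : T_NOR := H86.ND.pf_NOR
theorem d_WB : T_WB := H4.ND.pf_WB
theorem d_LW : T_LW := H4.ND.pf_LW d_RND
theorem d_SLP : T_SLP := H2.ND.pf_SLP
theorem d_D2S : T_D2S := H35.ND.pf_D2S d_WB d_LW d_SLP
theorem d_D2C : T_D2C := H29.ND.pf_D2C d_LW
theorem d_REC : T_REC := H29.ND.pf_REC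
theorem d_D2 : T_D2 := H29.ND.pf_D2 d_NOR d_D2S d_D2C d_REC
theorem d_GSI : T_GSI := H2.ND.pf_GSI d_REV
theorem d_REGE : T_REGE := H35.ND.pf_REGE d_REV d_GSI d_NOR d_D2
theorem d_GD : T_GD := H85.ND.pf_GD d_D1 d_REGE
theorem d_DIF : T_DIF := H85.ND.pf_DIF
theorem d_D3A : T_D3A := H4.ND.pf_D3A d_ALM
theorem d_D3D : T_D3D := H2.ND.pf_D3D

end Pool.Agent.H97.FIN
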