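import Pool.Agent.H97.FIN.D1
import Pool.Agent.H95.INS.Final
import Pool.Agent.H2.PD.ASG
import Pool.Agent.H2.PD.ASR
import Pool.Agent.H2.PD.GSM
import Pool.Agent.H2.PD.UPP
import Pool.Agent.H95.PD.JC
import Pool.Agent.H95.PD.JM
import Pool.Agent.H95.PD.CNT
import Pool.Agent.H95.PD.PALM
import Pool.Agent.H95.PD.WSM
import Pool.Agent.H95.PD.XFA
import Pool.Agent.H97.PD.CH
import Pool.Agent.H97.PD.PK
import Pool.Agent.H97.PD.MEA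
import Pool.Agent.H58.PD.FCD
import Pool.Agent.H58.PD.NMM
import Pool.Agent.H58.PD.RFS
import Pool.Agent.H66.PD.FCI
import Pool.Agent.H19.PD.FUB
import Pool.Agent.H73.PD.Gdk
import Pool.Agent.H14.PD.INT
import Pool.Agent.H14.PD.PNV
import Pool.Agent.H75.PD.LOW
import Pool.Agent.H42.PD.JC1
import Pool.Agent.H42.PD.TPB
import Pool.Agent.H37.PD.NGS
import Pool.Agent.H48.PD.RFP
import Pool.Agent.H20.PD.SMF
import Pool.Agent.H22.LPP.All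
import Pool.Agent.H22.LPP.PartA
import Pool.Agent.H22.LPP.TubeIn

/-!
# Assembly: Part D, probabilistic half
-/

namespace Pool.Agent.H97.FIN

open Pool.Agent.H95.ND
open Pool.Agent.H95.INS (t_DEP t_FIM t_MAR t_DER t_PAL f_PRB f_OVL2 t_IA t_IB t_IC t_IS t_IL)
open Pool.Agent.H22.LPP (a_lam a_lamm a_ba a_bl a_bli)
open Pool.Agent.H22.PNM (i_TL i_TI)

theorem p_SMF : T_SMF := H20.PD.pf_SMF
theorem p_XFA : T_XFA := H95.PD.pf_XFA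
theorem p_WSM : T_WSM := H95.PD.pf_WSM
theorem p_UPP : T_UPP := H2.PD.pf_UPP p_WSM
theorem p_INT : T_INT := H14.PD.pf_INT p_WSM
theorem p_ASR : T_ASR := H2.PD.pf_ASR
theorem p_ASG : T_ASG := H2.PD.pf_ASG
theorem p_PAT : T_PAT := H95.PD.pf_PAT
theorem p_JM : T_JM := H95.PD.pf_JM
theorem p_FCD : T_FCD := H58.PD.pf_FCD t_DEP t_FIM
theorem p_FCI : T_FCI := H66.PD.pf_FCI p_FCD
theorem p_NMM : T_NMM := H58.PD.pf_NMM
theorem p_CHV : T_CHV := H97.PD.pf_CHV p_ASR p_ASG d_D3D t_FIM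
theorem p_CHN : T_CHN := H97.PD.pf_CHN p_ASR p_ASG p_NMM d_D3D
theorem p_JC1 : T_JC1 := H42.PD.pf_JC1 p_CHV p_FCI p_FCD p_PAT p_SMF d_D3A d_D3D
theorem p_JC2 : T_JC2 := H95.PD.pf_JC2 p_CHN p_FCI p_PAT p_SMF
theorem p_JC : T_JC := H95.PD.pf_JC p_JC1 p_JC2 p_JM
theorem p_PK : T_PK := H97.PD.pf_PK f_PRB (t_PAL a_lam)
theorem p_MEA : T_MEA := H97.PD.pf_MEA p_NMM p_FCD
theorem p_FUB : T_FUB := H19.PD.pf_FUB
theorem p_FIB : T_FIB := H19.PD.pf_FIB p_FUB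
theorem p_GPR : T_GPR := H95.PD.pf_GPR
theorem p_CNT : T_CNT := H95.PD.pf_CNT
theorem p_GSM : T_GSM := H2.PD.pf_GSM p_FIB p_GPR p_CNT
theorem p_GDK : T_GDK := H73.PD.pf_GDK p_XFA p_SMF
theorem p_RFP : T_RFP := H48.PD.pf_RFP p_XFA t_MAR t_DER t_FIM p_SMF
theorem p_RFS : T_RFS := H58.PD.pf_RFS p_RFP
theorem p_CHB : T_CHB := H95.PD.pf_CHB p_XFA
theorem p_NGS : T_NGS := H37.PD.pf_NGS p_CHB
theorem p_TPB : T_TPB := H42.PD.pf_TPB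
theorem p_PALM : T_PALM := H95.PD.pf_PALM p_XFA p_MEA p_GSM p_GDK p_CHB p_NGS p_TPB p_RFS

theorem p_LOW : T_LOW := H75.PD.pf_LOW p_WSM p_SMF
theorem p_PNM : T_PNM := H14.PD.pf_PNM p_UPP p_LOW p_INT p_SMF
theorem p_PVV : T_PVV := H14.PD.pf_PVV p_UPP p_LOW p_INT p_SMF

/-- Tails of the norms. -/
theorem i_N {q : ℝ} (hq0 : 0 < q) (hq1 : q < 1) : I_N q :=
  p_PNM (a_ba H22.LPP.A.a_UT H22.LPP.A.a_LT) (a_bl H22.LPP.A.a_LT) (a_bli H22.LPP.A.a_LT)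
    q hq0 hq1

/-- Tails of the violations. -/
theorem i_V {q : ℝ} (hq0 : 0 < q) (hq1 : q < 1) : I_V q :=
  p_PVV (a_ba H22.LPP.A.a_UT H22.LPP.A.a_LT) q hq0 hq1
    (i_TL H22.LPP.A.a_UT H22.LPP.A.a_LT hq0 hq1) (i_TI H22.LPP.A.a_UT H22.LPP.A.a_LT hq0 hq1)

end Pool.Agent.H97.FIN
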