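import Pool.Agent.H97.FIN.D2
import Pool.Agent.H65.ND.BZ
import Pool.Agent.H65.ND.CNC
import Pool.Agent.H65.ND.CSW
import Pool.Agent.H22.ND.TFG
import Pool.Agent.H22.ND.TFL2
import Pool.Agent.H22.ND.ITP
import Pool.Agent.H22.ND.CRM
import Pool.Agent.H22.ND.DFT
import Pool.Agent.H20.ND.MOM
import Pool.Agent.H76.ND.RLO
import Pool.Agent.H29.ND.KTL
import Pool.Agent.H2.ND.CHX
import Pool.Agent.H2.ND.PGN
import Pool.Agent.H95.ND.CST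
import Pool.Agent.H95.ND.IRN
import Pool.Agent.H20.ND.PCR
import Pool.Agent.H20.ND.RRB
import Pool.Agent.H20.ND.RFA
import Pool.Agent.H94.ND.RGA
import Pool.Agent.H7.ND.RGS
import Pool.Agent.H7.ND.TC0
import Pool.Agent.H90.ND.TCH
import Pool.Agent.H35.ND.KG2
import Pool.Agent.H35.ND.KG4
import Pool.Agent.H76.ND.KG3
import Pool.Agent.H29.ND.PFL
import Pool.Agent.H86.ND2.KSM
import Pool.Agent.H86.ND2.MEG
import Pool.Agent.H97.ND.KK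
import Pool.Agent.H97.ND.RDT
import Pool.Agent.H97.ND.DEP2
import Pool.Agent.H97.BR.Palm
import Pool.Agent.H97.BR.Top
import Pool.Agent.H97.BR.Reg
import Pool.Agent.H97.BR.Ipl
import Pool.Agent.H97.NF.All

/-!
# Assembly: Part D, second half (tubes, tiles, moments)
-/

namespace Pool.Agent.H97.FIN

open Pool.Agent.H76.ND
open Pool.Agent.H95.INS (t_DEP t_FIM t_MAR t_DER t_PAL)
open Pool.Agent.H22.LPP (a_lam a_lamm a_ba a_bl a_bli a_cr a_reg)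

theorem e_TFG : T_TFG := H22.ND.pf_TFG (a_ba H22.LPP.A.a_UT H22.LPP.A.a_LT)
theorem e_TOP : T_TOP := H22.ND.pf_TOP e_TFG
theorem e_ITP : T_ITP := H22.ND.pf_ITP e_TOP a_lam
theorem e_CHX : T_CHX := H2.ND.pf_CHX
theorem e_PGN : T_PGN := H2.ND.pf_PGN
theorem e_PCR : T_PCR := H20.ND.pf_PCR (a_cr H22.LPP.A.a_UT H22.LPP.A.a_LT)
theorem e_RGA : T_RGA := H94.ND.pf_RGA a_reg
theorem e_RGS : T_RGS := H7.ND.pf_RGS
theorem e_TC0 : T_TC0 := H7.ND.pf_TC0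
theorem e_RRB : T_RRB := H20.ND.pf_RRB e_RGA
theorem e_MEG : T_MEG := H86.ND2.pf_MEG t_FIM
theorem e_RFA : T_RFA := H20.ND.pf_RFA e_RRB e_PCR t_MAR e_MEG t_DER t_FIM
theorem e_TFL : T_TFL := H22.ND.pf_TFL e_TOP e_PGN e_RGA e_PCR e_CHX d_GSI d_D2
theorem e_DEP2 : T_DEP2 := H97.ND.pf_DEP2 d_WB d_LW
theorem e_DFT : T_DFT :=
  H22.ND.pf_DFT (a_ba H22.LPP.A.a_UT H22.LPP.A.a_LT) e_TFL e_PGN e_RGA e_PCR e_CHX d_GSI e_DEP2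
theorem e_CRM : T_CRM := H22.ND.pf_CRM
theorem e_MOM : T_MOM := H20.ND.pf_MOM e_DFT e_CRM
theorem e_CSW : T_CSW := H65.ND.pf_CSW e_MOM
theorem e_TCH : T_TCH := H90.ND.pf_TCH e_TFL
theorem e_PDT : T_PDT := H90.ND.pf_PDT e_TFL
theorem e_PFL : T_PFL := H29.ND.pf_PFL e_TCH e_PDT e_RGA e_PCR e_CHX e_RFA
theorem e_BZ : T_BZ := H65.ND.pf_BZ
theorem e_KSM : T_KSM := H86.ND2.pf_KSM e_BZ
theorem e_KG2 : T_KG2 := H35.ND.pf_KG2 e_TC0 d_D1 d_GD d_DIF e_RGS e_MEG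
theorem e_KG3 : T_KG3 := H76.ND.pf_KG3 e_MEG p_MEA
theorem e_KG4 : T_KG4 := H35.ND.pf_KG4 a_lam a_lamm e_MEG H97.NF.a_OVL H97.NF.a_MON H97.NF.a_NIC
theorem e_KTL : T_KTL :=
  H29.ND.pf_KTL e_BZ e_TC0 e_KG2 e_KG3 e_KG4 e_PFL e_TCH e_CSW e_CHX
theorem e_CST : T_CST := H95.ND2.pf_CST p_JC
theorem e_KK : T_KK := H97.ND.pf_KK e_CST e_KTL e_KSM
theorem e_RLO : T_RLO := H76.ND.pf_RLO d_WB d_LW
theorem e_CNC : T_CNC := H65.ND.pf_CNC d_LW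
theorem e_RDT : T_RDT := H97.ND.pf_RDT a_lam d_GSI d_U d_REV d_REGE e_RLO e_CNC
theorem e_IRN : T_IRN := H95.ND2.pf_IRN e_RGA e_PCR
theorem e_NG1 : T_NG1 := H97.BR.pf_NG1 p_MEA a_lamm
theorem e_IRG : T_IRG := H97.BR.pf_IRG a_lam e_RDT

end Pool.Agent.H97.FIN
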